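import Pool.Agent.TH599.FC.Compare
import Pool.Agent.TH599.FC.Met

set_option autoImplicit false

/-!
# Two continuous positive metrics on `O(1)` over `P¹` in no common flat cone

The weights are `φ_c(z) = 4 log |c + √z|`, `c = 1, 2`.  They are harmonic off the half line
`(-∞, 0]`; by the maximum principle such a metric is, up to an additive constant, determined by
the basis as soon as it lies in the image of `f ↦ φ^f`, whatever `f` is.
-/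

namespace Pool.Agent.Results.MP_ab0522_gt.NoCommonCone

open Polynomial MeasureTheory Filter Topology Pool.Agent.TH599.FC

/-- **Main theorem.** There are continuous positive metrics `φ₀, φ₁` on `O(1)` over `P¹` such that
for no volume form, no continuous positive metric `φ` and no bounded graded filtration `ℱ` both
`φ₀` and `φ₁` lie in the image of `f ↦ φ^f` on the cone `𝒞(ℱ)`. -/
theorem result : ∃ φ₀ φ₁ : ℂ → ℝ, IsPosMetric φ₀ ∧ IsPosMetric φ₁ ∧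
    ∀ (μ : Measure ℂ) (φ : ℂ → ℝ) (F : Filtration) (σ : Measure ℝ)
      (s : (k : ℕ) → Fin (k + 1) → ℂ[X]) (lam : (k : ℕ) → Fin (k + 1) → ℝ)
      (f₀ f₁ : ℝ → ℝ) (τ : ℝ),
      IsVolumeForm μ → IsPosMetric φ →
      (∀ k, 1 ≤ k → IsAdaptedBasis φ μ F k (s k) (lam k)) →
      IsDH F σ → InCone σ f₀ → InCone σ f₁ →
      (τ = -1 ∨ (τ = 1 ∧ NoJump σ f₀ ∧ NoJump σ f₁)) →
      ¬ (IsUscLim (fun k => phik τ f₀ k (s k) (lam k)) φ₀ ∧
        IsUscLim (fun k => phik τ f₁ k (s k) (lam k)) φ₁) := by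
  refine ⟨met 1, met 2, isPosMetric_met one_pos, isPosMetric_met two_pos, ?_⟩
  rintro μ φ F σ s lam f₀ f₁ τ hμ hφ h hσ hf₀ hf₁ hτ ⟨h₀, h₁⟩
  have hm1 := isPosMetric_met (c := 1) one_pos
  have hm2 := isPosMetric_met (c := 2) two_pos
  obtain ⟨B₀, hB₀⟩ := hf₀.bdd
  obtain ⟨B₁, hB₁⟩ := hf₁.bdd
  have hτ1 : |τ| = 1 := by
    rcases hτ with rfl | ⟨rfl, _⟩
    · rw [abs_neg, abs_one]
    · exact abs_one
  have hb₀ : ∀ x, |τ * f₀ x| ≤ B₀ := fun x => by rw [abs_mul, hτ1, one_mul]; exact hB₀ x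
  have hb₁ : ∀ x, |τ * f₁ x| ≤ B₁ := fun x => by rw [abs_mul, hτ1, one_mul]; exact hB₁ x
  obtain ⟨E₀⟩ := exists_extSeq h hφ hμ hb₀ hm1.cont h₀ Complex.isOpen_slitPlane
    isPreconnected_slitPlane dense_slitPlane (fun w R hR hw => integral_met one_pos hR hw)
    Complex.one_mem_slitPlane
  obtain ⟨E₁⟩ := exists_extSeq h hφ hμ hb₁ hm2.cont h₁ Complex.isOpen_slitPlane
    isPreconnected_slitPlane dense_slitPlane (fun w R hR hw => integral_met two_pos hR hw)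
    Complex.one_mem_slitPlane
  have hΛ₀ : E₀.Λ ≤ lo σ := E₀.le_lo h hφ hμ hm1 hσ
  have hΛ₁ : E₁.Λ ≤ lo σ := E₁.le_lo h hφ hμ hm2 hσ
  rcases hτ with rfl | ⟨rfl, hn₀, hn₁⟩
  · have hc₀ : ContinuousWithinAt f₀ (Set.Iic E₀.Λ) E₀.Λ :=
      (hf₀.left E₀.Λ hΛ₀).mono (Set.Iic_subset_Iic.2 hΛ₀)
    have hc₁ : ContinuousWithinAt f₁ (Set.Iic E₁.Λ) E₁.Λ :=
      (hf₁.left E₁.Λ hΛ₁).mono (Set.Iic_subset_Iic.2 hΛ₁)
    apply met_ne (c₀ := E₀.c) (c₁ := E₁.c)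
    intro x
    apply le_antisymm
    · exact compare_neg E₀ E₁ h hφ hμ hm1 hm2 hf₁.decr hc₁ h₁ x
    · exact compare_neg E₁ E₀ h hφ hμ hm2 hm1 hf₀.decr hc₀ h₀ x
  · have hcont : ∀ f : ℝ → ℝ, NoJump σ f → ∀ L ≤ lo σ, ContinuousAt f L := by
      intro f hf L hL
      rcases hL.lt_or_eq with hL | rfl
      · have h1 : f =ᶠ[𝓝 L] fun _ => f (lo σ) := by
          filter_upwards [Iio_mem_nhds hL] with x hx
          exact hf.2 x (le_of_lt hx)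
        exact continuousAt_const.congr h1.symm
      · exact hf.1
    have e₀ : E₀.c = -1 * f₀ (lo σ) := by
      have h1 := E₀.a_lim
      have h2 : Tendsto (fun n => -1 * f₀ (lam (E₀.k n) (E₀.i n) / E₀.k n)) atTop
          (𝓝 (-1 * f₀ E₀.Λ)) := ((hcont f₀ hn₀ _ hΛ₀).tendsto.comp E₀.l_lim).const_mul (-1)
      rw [tendsto_nhds_unique h1 h2, hn₀.2 _ hΛ₀]
    have e₁ : E₁.c = -1 * f₁ (lo σ) := by
      have h1 := E₁.a_lim
      have h2 : Tendsto (fun n => -1 * f₁ (lam (E₁.k n) (E₁.i n) / E₁.k n)) atTop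
          (𝓝 (-1 * f₁ E₁.Λ)) := ((hcont f₁ hn₁ _ hΛ₁).tendsto.comp E₁.l_lim).const_mul (-1)
      rw [tendsto_nhds_unique h1 h2, hn₁.2 _ hΛ₁]
    have g₀ := compare_pos E₀ h hφ hμ hm1 hm2 (hcont f₁ hn₁ _ hΛ₀) hb₁ h₁
    have g₁ := compare_pos E₁ h hφ hμ hm2 hm1 (hcont f₀ hn₀ _ hΛ₁) hb₀ h₀
    rw [hn₁.2 _ hΛ₀, ← e₁] at g₀
    rw [hn₀.2 _ hΛ₁, ← e₀] at g₁
    apply met_ne (c₀ := E₀.c) (c₁ := E₁.c)
    intro x
    exact le_antisymm (g₀ x) (g₁ x)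

end Pool.Agent.Results.MP_ab0522_gt.NoCommonCone
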